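import Pool.Agent.W579.RC.Leave
import Pool.Agent.H16R3.Curv.Zorn

set_option autoImplicit false

/-!
# A Ricci flow invariant curvature cone with the pinching property outside `C_IC1`

For every `n ≥ 4` there is a Ricci flow invariant curvature cone with the pinching property which
is not contained in `C_IC1`; it can even be chosen maximal among the Ricci flow invariant
curvature cones with the pinching property.

Idea.  Write `R = k Id + E + W` (scalar part, trace free Ricci part, Weyl part).  The round cone
`¼ |E|² + |W|² ≤ ρ² k²` with `ρ² = Z n (n - 1) / (4 (n - 2))`, `Z = 0.63` for `n = 4` and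
`Z = 0.58` for `n ≥ 5`, is Ricci flow invariant and has the pinching property, because
`k ⟨¼ E + W, Q(R)⟩ ≤ p k(Q(R)) (¼ |E|² + |W|²)` on it for some `p < 1`.  It contains operators
with `R₁₃₁₃ + R₂₃₂₃ < 0`.
-/

open Pool.Agent.H16R3.Curv Pool.Agent.W579.RC

namespace Pool.Agent.Results.MP_952e48_gt.BeyondIC1

/-- For every `n ≥ 4` there is a Ricci flow invariant curvature cone `C` with the pinching
property which is not contained in `C_IC1`, and which is maximal with respect to inclusion among
the Ricci flow invariant curvature cones with the pinching property. -/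
theorem result (n : ℕ) (hn : 4 ≤ n) :
    ∃ C : Set (Tensor4 n), IsPinchingCone n C ∧ ¬ C ⊆ CIC1 n ∧
      ∀ C' : Set (Tensor4 n), IsPinchingCone n C' → C ⊆ C' → C' = C := by
  obtain ⟨C, hC, hsub, hmax⟩ := exists_maximal (bigCone_isPinchingCone hn)
  exact ⟨C, hC, fun h => bigCone_not_subset hn (hsub.trans h), hmax⟩

end Pool.Agent.Results.MP_952e48_gt.BeyondIC1
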